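import Mathlib

/-!
# The edge-distinguishing game on triangular ladders

Player 1 wins the edge-distinguishing game on the triangular ladders `T_8` and `T_10`
(played with `λ(T_8) = λ(T_10) = 7` colours), so it is not true that Player 2 wins on `T_n` for every
`n ≥ 4`.
-/

set_option autoImplicit false

namespace Pool.Agent.Results.MP_08a4a0_co.LadderGame

/-! ## Statement -/

/-- The pairs `(i, j)` with `i < j` that are edges of the triangular ladder `T_n`.  The vertices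
are `0, …, n-1` (the vertex `v` of the problem is `v - 1` here). -/
def Edge (n i j : ℕ) : Prop := j < n ∧ (j = i + 1 ∨ j = i + 2)

/-- A (partial) colouring is a map `c : ℕ → ℕ`; `c v = 0` means that `v` is not coloured, the
colours are `1, 2, …`.  `Dist n c`: distinct edges of `T_n` with both ends coloured receive
distinct multisets of colours. -/
def Dist (n : ℕ) (c : ℕ → ℕ) : Prop :=
  ∀ i j i' j', Edge n i j → Edge n i' j' → c i ≠ 0 → c j ≠ 0 → c i' ≠ 0 → c j' ≠ 0 →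
    ((c i = c i' ∧ c j = c j') ∨ (c i = c j' ∧ c j = c i')) → i = i' ∧ j = j'

/-- `T_n` has an edge-distinguishing colouring with colours from `{1, …, k}`. -/
def Colourable (n k : ℕ) : Prop := ∃ c : ℕ → ℕ, (∀ v < n, 1 ≤ c v ∧ c v ≤ k) ∧ Dist n c

/-- `k` is the edge-distinguishing chromatic number of `T_n`. -/
def IsLambda (n k : ℕ) : Prop := Colourable n k ∧ ∀ k' < k, ¬ Colourable n k'

/-- A legal move in the game on `T_n` with `k` colours. -/
def Move (n k : ℕ) (c c' : ℕ → ℕ) : Prop :=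
  ∃ v a, v < n ∧ c v = 0 ∧ 1 ≤ a ∧ a ≤ k ∧ c' = Function.update c v a ∧ Dist n c'

/-- The player to move at `c` has a winning strategy: there is a move `c → c'` such that after
every answer `c' → c''` the player (again to move) has a winning strategy. -/
inductive MoverWins (n k : ℕ) : (ℕ → ℕ) → Prop
  | intro (c c' : ℕ → ℕ) (h : Move n k c c') (h' : ∀ c'', Move n k c' c'' → MoverWins n k c'') :
      MoverWins n k c

/-- the empty colouring -/
def start : ℕ → ℕ := fun _ => 0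

/-- Player 1 (who moves first) has a winning strategy on `T_n` with `k` colours. -/
def Player1Wins (n k : ℕ) : Prop := MoverWins n k start

/-- Player 2 has a winning strategy on `T_n` with `k` colours: after every first move, the player
then to move (Player 2) has a winning strategy. -/
def Player2Wins (n k : ℕ) : Prop := ∀ c, Move n k start c → MoverWins n k c

/-! ## Symmetry -/

/-- the player to move loses -/
def Lose (n k : ℕ) (c : ℕ → ℕ) : Prop := ∀ c', Move n k c c' → MoverWins n k c'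

theorem MoverWins.not_lose {n k : ℕ} {c : ℕ → ℕ} (h : MoverWins n k c) : ¬ Lose n k c := by
  induction h with
  | intro c c' h1 h2 ih =>
      intro hl
      cases hl c' h1 with
      | intro _ c'' h3 h4 => exact ih c'' h3 h4

/-- swap of two numbers -/
def sw (a b x : ℕ) : ℕ := if x = a then b else if x = b then a else x

theorem sw_sw (a b x : ℕ) : sw a b (sw a b x) = x := by
  unfold sw; split_ifs <;> omega

theorem sw_inj {a b x y : ℕ} (h : sw a b x = sw a b y) : x = y := by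
  rw [← sw_sw a b x, h, sw_sw]

theorem sw_zero {a b : ℕ} (ha : 1 ≤ a) (hb : 1 ≤ b) (x : ℕ) : sw a b x = 0 ↔ x = 0 := by
  unfold sw; split_ifs <;> omega

theorem sw_bd {a b k x : ℕ} (ha : 1 ≤ a) (hb : 1 ≤ b) (ha' : a ≤ k) (hb' : b ≤ k)
    (h1 : 1 ≤ x) (h2 : x ≤ k) : 1 ≤ sw a b x ∧ sw a b x ≤ k := by
  unfold sw; split_ifs <;> omega

theorem Dist.swap {n : ℕ} {c : ℕ → ℕ} {a b : ℕ} (ha : 1 ≤ a) (hb : 1 ≤ b) (h : Dist n c) :
    Dist n (fun v => sw a b (c v)) := by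
  intro i j i' j' e1 e2 h1 h2 h3 h4 h5
  simp only [ne_eq, sw_zero ha hb] at h1 h2 h3 h4
  refine h i j i' j' e1 e2 h1 h2 h3 h4 ?_
  rcases h5 with ⟨h5, h6⟩ | ⟨h5, h6⟩
  · exact Or.inl ⟨sw_inj h5, sw_inj h6⟩
  · exact Or.inr ⟨sw_inj h5, sw_inj h6⟩

theorem Move.swap {n k : ℕ} {c c' : ℕ → ℕ} {a b : ℕ} (ha : 1 ≤ a) (hb : 1 ≤ b) (ha' : a ≤ k)
    (hb' : b ≤ k) (h : Move n k c c') :
    Move n k (fun v => sw a b (c v)) (fun v => sw a b (c' v)) := by
  obtain ⟨v, x, h1, h2, h3, h4, rfl, h6⟩ := h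
  have hbd := sw_bd ha hb ha' hb' h3 h4
  refine ⟨v, sw a b x, h1, ?_, hbd.1, hbd.2, ?_, h6.swap ha hb⟩
  · rw [sw_zero ha hb]; exact h2
  · funext w
    by_cases hw : w = v
    · subst hw; simp
    · simp [Function.update_of_ne hw]

theorem swap_swap (a b : ℕ) (c : ℕ → ℕ) :
    (fun v => sw a b ((fun v => sw a b (c v)) v)) = c := by
  funext v; exact sw_sw a b (c v)

theorem MoverWins.swap {n k : ℕ} {c : ℕ → ℕ} {a b : ℕ} (ha : 1 ≤ a) (hb : 1 ≤ b) (ha' : a ≤ k)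
    (hb' : b ≤ k) (h : MoverWins n k c) : MoverWins n k (fun v => sw a b (c v)) := by
  induction h with
  | intro c c' h1 h2 ih =>
      refine MoverWins.intro _ _ (h1.swap ha hb ha' hb') ?_
      intro c'' h3
      have h4 := h3.swap ha hb ha' hb'
      rw [swap_swap] at h4
      have h5 := ih _ h4
      rwa [swap_swap] at h5

theorem Lose.swap {n k : ℕ} {c : ℕ → ℕ} {a b : ℕ} (ha : 1 ≤ a) (hb : 1 ≤ b) (ha' : a ≤ k)
    (hb' : b ≤ k) (h : Lose n k (fun v => sw a b (c v))) : Lose n k c := by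
  intro c' hc
  have h1 := h _ (hc.swap ha hb ha' hb')
  have h2 := h1.swap ha hb ha' hb'
  rwa [swap_swap] at h2

/-! ## Executable side -/

/-- code of an unordered pair -/
def code (a b : ℕ) : ℕ := if a ≤ b then b * b + a else a * a + b

theorem code_inj {a b a' b' : ℕ} (h : code a b = code a' b') :
    (a = a' ∧ b = b') ∨ (a = b' ∧ b = a') := by
  have key : ∀ x y x' y' : ℕ, x ≤ y → x' ≤ y' → y * y + x = y' * y' + x' → x = x' ∧ y = y' := by
    intro x y x' y' h1 h2 h3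
    rcases Nat.lt_trichotomy y y' with h4 | h4 | h4
    · exfalso; nlinarith
    · subst h4; omega
    · exfalso; nlinarith
  unfold code at h
  split_ifs at h with h1 h2 h2
  · have := key _ _ _ _ h1 h2 h; omega
  · have := key _ _ _ _ h1 (by omega) h; omega
  · have := key _ _ _ _ (by omega) h2 h; omega
  · have := key _ _ _ _ (by omega) (by omega) h; omega

theorem code_comm (a b : ℕ) : code a b = code b a := by
  unfold code
  split_ifs with h1 h2 h2
  · have : a = b := by omega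
    subst this; rfl
  · rfl
  · rfl
  · omega

/-- all (oriented) edges of `T_n` -/
def edges (n : ℕ) : List (ℕ × ℕ) :=
  (List.range n).flatMap fun i =>
    if i + 2 < n then [(i, i + 1), (i, i + 2)] else if i + 1 < n then [(i, i + 1)] else []

theorem mem_edges (n i j : ℕ) : (i, j) ∈ edges n ↔ Edge n i j := by
  unfold edges Edge
  rw [List.mem_flatMap]
  constructor
  · rintro ⟨x, _, h⟩
    split_ifs at h with h1 h2
    · simp only [List.mem_cons, Prod.mk.injEq, List.not_mem_nil, or_false] at h; omega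
    · simp only [List.mem_cons, Prod.mk.injEq, List.not_mem_nil, or_false] at h; omega
    · simp at h
  · rintro ⟨h1, h2⟩
    refine ⟨i, by rw [List.mem_range]; omega, ?_⟩
    rcases h2 with h2 | h2
    · subst h2
      split_ifs with h3
      · simp
      · simp
    · subst h2
      rw [if_pos h1]
      simp

/-- colouring given by a list -/
def toFun (l : List ℕ) : ℕ → ℕ := fun v => l.getD v 0

/-- checks that the codes of coloured edges are pairwise different (and not in `mask`) -/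
def okAux : List (ℕ × ℕ) → ℕ → List ℕ → Bool
  | [], _, _ => true
  | e :: t, mask, l =>
    if l.getD e.1 0 = 0 ∨ l.getD e.2 0 = 0 then okAux t mask l
    else if mask.testBit (code (l.getD e.1 0) (l.getD e.2 0)) then false
    else okAux t (mask ||| (1 <<< code (l.getD e.1 0) (l.getD e.2 0))) l

theorem okAux_iff (l : List ℕ) : ∀ (E : List (ℕ × ℕ)) (mask : ℕ), okAux E mask l = true ↔
    (∀ e ∈ E, toFun l e.1 ≠ 0 → toFun l e.2 ≠ 0 →
      mask.testBit (code (toFun l e.1) (toFun l e.2)) = false) ∧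
    E.Pairwise (fun e f => toFun l e.1 ≠ 0 → toFun l e.2 ≠ 0 → toFun l f.1 ≠ 0 →
      toFun l f.2 ≠ 0 → code (toFun l e.1) (toFun l e.2) ≠ code (toFun l f.1) (toFun l f.2)) := by
  intro E
  induction E with
  | nil => intro mask; simp [okAux]
  | cons e t ih =>
      intro mask
      unfold okAux
      split_ifs with h1 h2
      · rw [ih mask, List.pairwise_cons]
        constructor
        · rintro ⟨a1, a2⟩
          refine ⟨?_, ?_, a2⟩
          · intro f hf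
            rcases List.mem_cons.1 hf with rfl | hf
            · intro b1 b2; unfold toFun at b1 b2; exact absurd h1 (by tauto)
            · exact a1 f hf
          · intro f hf b1 b2; unfold toFun at b1 b2; exact absurd h1 (by tauto)
        · rintro ⟨a1, a2, a3⟩
          exact ⟨fun f hf => a1 f (List.mem_cons_of_mem _ hf), a3⟩
      · simp only [false_iff]
        rintro ⟨a1, _⟩
        have := a1 e List.mem_cons_self (by unfold toFun; tauto) (by unfold toFun; tauto)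
        unfold toFun at this
        rw [this] at h2
        exact absurd h2 (by simp)
      · rw [ih, List.pairwise_cons]
        have hb : ∀ m : ℕ, (mask ||| (1 <<< code (l.getD e.1 0) (l.getD e.2 0))).testBit m = false ↔
            mask.testBit m = false ∧ code (l.getD e.1 0) (l.getD e.2 0) ≠ m := by
          intro m
          rw [Nat.testBit_or, Nat.one_shiftLeft, Nat.testBit_two_pow]
          simp
        simp only [hb]
        constructor
        · rintro ⟨a1, a2⟩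
          refine ⟨?_, ?_, a2⟩
          · intro f hf
            rcases List.mem_cons.1 hf with rfl | hf
            · intro _ _; unfold toFun; simpa using h2
            · intro b1 b2; exact (a1 f hf b1 b2).1
          · intro f hf _ _ b3 b4
            exact (a1 f hf b3 b4).2
        · rintro ⟨a1, a2, a3⟩
          refine ⟨fun f hf b1 b2 => ⟨a1 f (List.mem_cons_of_mem _ hf) b1 b2, ?_⟩, a3⟩
          exact a2 f hf (by unfold toFun; tauto) (by unfold toFun; tauto) b1 b2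

theorem ok_iff {n : ℕ} {E : List (ℕ × ℕ)} (hE : E = edges n) (hN : E.Nodup) (l : List ℕ) :
    okAux E 0 l = true ↔ Dist n (toFun l) := by
  rw [okAux_iff]
  constructor
  · rintro ⟨_, h⟩ i j i' j' e1 e2 h1 h2 h3 h4 h5
    by_contra hne
    have m1 : (i, j) ∈ E := by rw [hE, mem_edges]; exact e1
    have m2 : (i', j') ∈ E := by rw [hE, mem_edges]; exact e2
    have : Std.Symm (fun e f : ℕ × ℕ => toFun l e.1 ≠ 0 → toFun l e.2 ≠ 0 → toFun l f.1 ≠ 0 →
      toFun l f.2 ≠ 0 → code (toFun l e.1) (toFun l e.2) ≠ code (toFun l f.1) (toFun l f.2)) :=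
      ⟨fun e f hh a1 a2 a3 a4 hc => hh a3 a4 a1 a2 hc.symm⟩
    have := List.Pairwise.forall h m1 m2 (by
        intro hc; rw [Prod.mk.injEq] at hc; exact hne hc) h1 h2 h3 h4
    apply this
    rcases h5 with ⟨h5, h6⟩ | ⟨h5, h6⟩
    · rw [h5, h6]
    · rw [h5, h6]; exact code_comm _ _
  · intro h
    refine ⟨by simp, ?_⟩
    apply List.Nodup.pairwise_of_forall_ne hN
    rintro ⟨i, j⟩ m1 ⟨i', j'⟩ m2 hne h1 h2 h3 h4 hc
    apply hne
    have := h i j i' j' (by rw [← mem_edges, ← hE]; exact m1) (by rw [← mem_edges, ← hE]; exact m2)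
      h1 h2 h3 h4 (code_inj hc)
    rw [this.1, this.2]

/-- swap two colours in a list -/
def swapL (a b : ℕ) (l : List ℕ) : List ℕ := l.map (sw a b)

theorem toFun_swapL {a b : ℕ} (ha : 1 ≤ a) (hb : 1 ≤ b) (l : List ℕ) :
    toFun (swapL a b l) = fun v => sw a b (toFun l v) := by
  funext v
  unfold toFun swapL
  have h0 : sw a b 0 = 0 := by rw [sw_zero ha hb]
  conv_lhs => rw [← h0]
  exact List.getD_map _ _ _ |>.trans (by rfl)

/-- relabel the colours in order of first appearance -/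
def relab (k : ℕ) : ℕ → ℕ → ℕ → List ℕ → List ℕ
  | 0, _, _, l => l
  | f + 1, i, t, l =>
    if l.getD i 0 ≤ t then relab k f (i + 1) t l
    else if l.getD i 0 = t + 1 then relab k f (i + 1) (t + 1) l
    else if l.getD i 0 ≤ k then relab k f (i + 1) (t + 1) (swapL (l.getD i 0) (t + 1) l)
    else l

theorem lose_relab {n k : ℕ} : ∀ (f i t : ℕ) (l : List ℕ),
    Lose n k (toFun (relab k f i t l)) → Lose n k (toFun l) := by
  intro f
  induction f with
  | zero => intro i t l h; exact h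
  | succ f ih =>
      intro i t l h
      unfold relab at h
      split_ifs at h with h1 h2 h3
      · exact ih _ _ _ h
      · exact ih _ _ _ h
      · have h4 := ih _ _ _ h
        rw [toFun_swapL (by omega) (by omega)] at h4
        exact h4.swap (by omega) (by omega) h3 (by omega)
      · exact h

theorem toFun_set {l : List ℕ} {v : ℕ} (hv : v < l.length) (a : ℕ) :
    toFun (l.set v a) = Function.update (toFun l) v a := by
  funext w
  unfold toFun
  by_cases hw : w = v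
  · subst hw
    simp [List.getD_eq_getElem?_getD, hv]
  · rw [Function.update_of_ne hw]
    simp [List.getD_eq_getElem?_getD, List.getElem?_set_ne (Ne.symm hw)]

/-- check of one answer, coded as `8 v + a` -/
def repOK (n k : ℕ) (E : List (ℕ × ℕ)) (mem : List ℕ → Bool) (q : List ℕ) (r : ℕ) : Bool :=
  decide (r / 8 < n) && decide (q.getD (r / 8) 0 = 0) && decide (1 ≤ r % 8) &&
    decide (r % 8 ≤ k) && okAux E 0 (q.set (r / 8) (r % 8)) &&
    mem (relab k n 0 0 (q.set (r / 8) (r % 8)))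

/-- check of all moves of the opponent -/
def chkMoves (n k : ℕ) (E : List (ℕ × ℕ)) (mem : List ℕ → Bool) :
    List (ℕ × ℕ) → List ℕ → List ℕ → Bool
  | [], _, _ => true
  | m :: ms, l, reps =>
    if okAux E 0 (l.set m.1 m.2) then
      match reps with
      | [] => false
      | r :: rs => repOK n k E mem (l.set m.1 m.2) r && chkMoves n k E mem ms l rs
    else chkMoves n k E mem ms l reps

theorem chkMoves_sound {n k : ℕ} {E : List (ℕ × ℕ)} {mem : List ℕ → Bool} :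
    ∀ (ms : List (ℕ × ℕ)) (l reps : List ℕ), chkMoves n k E mem ms l reps = true →
      ∀ m ∈ ms, okAux E 0 (l.set m.1 m.2) = true → ∃ r, repOK n k E mem (l.set m.1 m.2) r = true := by
  intro ms
  induction ms with
  | nil => intro l reps _ m hm; simp at hm
  | cons m0 ms ih =>
      intro l reps h m hm hok
      unfold chkMoves at h
      split_ifs at h with h1
      · cases reps with
        | nil => simp at h
        | cons r rs =>
            simp only [Bool.and_eq_true] at h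
            rcases List.mem_cons.1 hm with rfl | hm
            · exact ⟨r, h.1⟩
            · exact ih l rs h.2 m hm hok
      · rcases List.mem_cons.1 hm with rfl | hm
        · exact absurd hok h1
        · exact ih l reps h m hm hok

/-- largest colour -/
def mx (l : List ℕ) : ℕ := l.foldr max 0

theorem le_mx (l : List ℕ) (v : ℕ) : toFun l v ≤ mx l := by
  unfold toFun mx
  induction l generalizing v with
  | nil => simp
  | cons x t ih =>
      cases v with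
      | zero => simp
      | succ v => simp only [List.getD_cons_succ, List.foldr_cons]; exact le_trans (ih v) (le_max_right _ _)

/-- moves to be checked -/
def allMoves (n k : ℕ) (l : List ℕ) : List (ℕ × ℕ) :=
  (List.range n).flatMap fun v =>
    if l.getD v 0 = 0 then (List.range (min k (mx l + 1))).map (fun a => (v, a + 1)) else []

theorem mem_allMoves {n k : ℕ} {l : List ℕ} {v a : ℕ} (hv : v < n) (h0 : toFun l v = 0)
    (h1 : 1 ≤ a) (h2 : a ≤ k) (h3 : a ≤ mx l + 1) : (v, a) ∈ allMoves n k l := by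
  unfold allMoves
  rw [List.mem_flatMap]
  refine ⟨v, List.mem_range.2 hv, ?_⟩
  unfold toFun at h0
  rw [if_pos h0, List.mem_map]
  exact ⟨a - 1, List.mem_range.2 (by omega), by rw [Nat.sub_add_cancel h1]⟩

/-- equality of lists -/
def leq : List ℕ → List ℕ → Bool
  | [], [] => true
  | a :: s, b :: t => Nat.beq a b && leq s t
  | _, _ => false

theorem leq_eq : ∀ {s t : List ℕ}, leq s t = true → s = t
  | [], [], _ => rfl
  | a :: s, b :: t, h => by
      simp only [leq, Bool.and_eq_true] at h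
      rw [Nat.eq_of_beq_eq_true h.1, leq_eq h.2]
  | [], _ :: _, h => by simp [leq] at h
  | _ :: _, [], h => by simp [leq] at h

/-- check of the whole list of lost positions; answers lead to positions later in the list -/
def chkAll (n k : ℕ) (E : List (ℕ × ℕ)) : List (List ℕ × List ℕ) → Bool
  | [] => true
  | e :: t => decide (e.1.length = n) &&
      chkMoves n k E (fun q => t.any (fun f => leq f.1 q)) (allMoves n k e.1) e.1 e.2 &&
      chkAll n k E t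

theorem pos_sound {n k : ℕ} {E : List (ℕ × ℕ)} (hE : E = edges n) (hN : E.Nodup)
    {mem : List ℕ → Bool} (hmem : ∀ q, mem q = true → Lose n k (toFun q))
    {l reps : List ℕ} (hl : l.length = n)
    (h : chkMoves n k E mem (allMoves n k l) l reps = true) : Lose n k (toFun l) := by
  -- first the moves with a colour at most `mx l + 1`
  have key : ∀ v a, v < n → toFun l v = 0 → 1 ≤ a → a ≤ k → a ≤ mx l + 1 →
      Dist n (Function.update (toFun l) v a) →
      MoverWins n k (Function.update (toFun l) v a) := by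
    intro v a h1 h2 h3 h4 h5 h6
    have hv : v < l.length := by omega
    rw [← toFun_set hv] at h6 ⊢
    rw [← ok_iff hE hN] at h6
    obtain ⟨r, hr⟩ := chkMoves_sound _ _ _ h (v, a) (mem_allMoves h1 h2 h3 h4 h5) h6
    unfold repOK at hr
    simp only [Bool.and_eq_true, decide_eq_true_eq] at hr
    obtain ⟨⟨⟨⟨⟨r1, r2⟩, r3⟩, r4⟩, r5⟩, r6⟩ := hr
    have hlen : r / 8 < (l.set v a).length := by rw [List.length_set]; omega
    have r5' := (ok_iff hE hN _).1 r5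
    have r6' := lose_relab _ _ _ _ (hmem _ r6)
    rw [toFun_set hlen] at r5' r6'
    exact MoverWins.intro _ _ ⟨r / 8, r % 8, r1, r2, r3, r4, rfl, r5'⟩ r6'
  intro c' hc
  obtain ⟨v, a, h1, h2, h3, h4, rfl, h6⟩ := hc
  by_cases h5 : a ≤ mx l + 1
  · exact key v a h1 h2 h3 h4 h5 h6
  · push Not at h5
    have hsw : (fun w => sw a (mx l + 1) (Function.update (toFun l) v a w)) =
        Function.update (toFun l) v (mx l + 1) := by
      funext w
      by_cases hw : w = v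
      · subst hw; simp [sw]
      · rw [Function.update_of_ne hw, Function.update_of_ne hw]
        have := le_mx l w
        unfold sw
        rw [if_neg (by omega), if_neg (by omega)]
    have h7 := h6.swap h3 (show 1 ≤ mx l + 1 by omega)
    rw [hsw] at h7
    have h8 := key v (mx l + 1) h1 h2 (by omega) (by omega) le_rfl h7
    rw [← hsw] at h8
    have h9 := h8.swap h3 (show 1 ≤ mx l + 1 by omega) h4 (by omega)
    rwa [swap_swap] at h9

theorem chkAll_sound {n k : ℕ} {E : List (ℕ × ℕ)} (hE : E = edges n) (hN : E.Nodup) :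
    ∀ L : List (List ℕ × List ℕ), chkAll n k E L = true → ∀ e ∈ L, Lose n k (toFun e.1) := by
  intro L
  induction L with
  | nil => intro _ e he; simp at he
  | cons e0 t ih =>
      intro h e he
      unfold chkAll at h
      simp only [Bool.and_eq_true, decide_eq_true_eq] at h
      obtain ⟨⟨h1, h2⟩, h3⟩ := h
      rcases List.mem_cons.1 he with rfl | he
      · refine pos_sound hE hN ?_ h1 h2
        intro q hq
        rw [List.any_eq_true] at hq
        obtain ⟨f, hf, hq⟩ := hq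
        rw [← leq_eq hq]
        exact ih h3 f hf
      · exact ih h3 e he

theorem player1_of {n k : ℕ} {E : List (ℕ × ℕ)} (hE : E = edges n) (hN : E.Nodup)
    (L : List (List ℕ × List ℕ)) (h : chkAll n k E L = true) (v a : ℕ) (hv : v < n) (h1 : 1 ≤ a)
    (h2 : a ≤ k) (hok : okAux E 0 ((List.replicate n 0).set v a) = true)
    (hmem : ∃ e ∈ L, e.1 = (List.replicate n 0).set v a) : Player1Wins n k := by
  obtain ⟨e, he, hee⟩ := hmem
  have hs : toFun (List.replicate n 0) = start := by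
    funext w; simp [toFun, start]
  have hlose := chkAll_sound hE hN L h e he
  rw [ok_iff hE hN] at hok
  rw [hee] at hlose
  rw [toFun_set (by simpa using hv), hs] at hlose hok
  exact MoverWins.intro _ _ ⟨v, a, hv, rfl, h1, h2, rfl, hok⟩ hlose

/-! ## The chromatic number -/

/-- search for the colours of the remaining `f` vertices, `x` and `y` being the two last colours -/
def ext (k : ℕ) : ℕ → ℕ → ℕ → ℕ → Bool
  | 0, _, _, _ => true
  | f + 1, x, y, mask => (List.range k).any fun a =>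
      !(mask.testBit (code y (a + 1))) && !(mask.testBit (code x (a + 1))) &&
      !(Nat.beq (code y (a + 1)) (code x (a + 1))) &&
      ext k f y (a + 1) (mask ||| (1 <<< code y (a + 1)) ||| (1 <<< code x (a + 1)))

theorem ext_sound {n k : ℕ} {c : ℕ → ℕ} (hc : ∀ v < n, 1 ≤ c v ∧ c v ≤ k) (hd : Dist n c) :
    ∀ (f i mask : ℕ), i + 2 + f = n →
      (∀ m, mask.testBit m = true → ∃ p q, Edge n p q ∧ q < i + 2 ∧ m = code (c p) (c q)) →
      ext k f (c i) (c (i + 1)) mask = true := by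
  intro f
  induction f with
  | zero => intro i mask _ _; rfl
  | succ f ih =>
      intro i mask hi hm
      have hci := hc (i + 2) (by omega)
      have nz : ∀ v < n, c v ≠ 0 := fun v hv => by have := hc v hv; omega
      unfold ext
      rw [List.any_eq_true]
      refine ⟨c (i + 2) - 1, List.mem_range.2 (by omega), ?_⟩
      rw [Nat.sub_add_cancel hci.1]
      have b1 : mask.testBit (code (c (i + 1)) (c (i + 2))) = false := by
        by_contra hcon
        obtain ⟨p, q, e, hq, he⟩ := hm _ (by simpa using hcon)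
        have e' := e
        unfold Edge at e'
        have := hd _ _ _ _ (show Edge n (i + 1) (i + 2) from ⟨by omega, by omega⟩) e
          (nz _ (by omega)) (nz _ (by omega)) (nz _ (by omega)) (nz _ (by omega)) (code_inj he)
        omega
      have b2 : mask.testBit (code (c i) (c (i + 2))) = false := by
        by_contra hcon
        obtain ⟨p, q, e, hq, he⟩ := hm _ (by simpa using hcon)
        have e' := e
        unfold Edge at e'
        have := hd _ _ _ _ (show Edge n i (i + 2) from ⟨by omega, by omega⟩) e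
          (nz _ (by omega)) (nz _ (by omega)) (nz _ (by omega)) (nz _ (by omega)) (code_inj he)
        omega
      have b3 : Nat.beq (code (c (i + 1)) (c (i + 2))) (code (c i) (c (i + 2))) = false := by
        rw [Bool.eq_false_iff]
        intro hcon
        have he := Nat.eq_of_beq_eq_true hcon
        have := hd _ _ _ _ (show Edge n (i + 1) (i + 2) from ⟨by omega, by omega⟩)
          (show Edge n i (i + 2) from ⟨by omega, by omega⟩)
          (nz _ (by omega)) (nz _ (by omega)) (nz _ (by omega)) (nz _ (by omega)) (code_inj he)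
        omega
      rw [b1, b2, b3]
      simp only [Bool.not_false, Bool.true_and]
      apply ih (i + 1)
      · omega
      · intro m hmm
        rw [Nat.testBit_or, Nat.testBit_or, Nat.one_shiftLeft, Nat.one_shiftLeft,
          Nat.testBit_two_pow, Nat.testBit_two_pow] at hmm
        simp only [Bool.or_eq_true, decide_eq_true_eq] at hmm
        rcases hmm with (h1 | h1) | h1
        · obtain ⟨p, q, e, hq, he⟩ := hm m h1
          exact ⟨p, q, e, by omega, he⟩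
        · exact ⟨i + 1, i + 2, ⟨by omega, by omega⟩, by omega, h1.symm⟩
        · exact ⟨i, i + 2, ⟨by omega, by omega⟩, by omega, h1.symm⟩

/-- search over all colourings of `T_{f+2}` -/
def search (k f : ℕ) : Bool :=
  (List.range k).any fun a => (List.range k).any fun b =>
    ext k f (a + 1) (b + 1) (1 <<< code (a + 1) (b + 1))

theorem search_sound {k f : ℕ} (h : Colourable (f + 2) k) : search k f = true := by
  obtain ⟨c, hc, hd⟩ := h
  have h0 := hc 0 (by omega)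
  have h1 := hc 1 (by omega)
  unfold search
  rw [List.any_eq_true]
  refine ⟨c 0 - 1, List.mem_range.2 (by omega), ?_⟩
  rw [List.any_eq_true]
  refine ⟨c 1 - 1, List.mem_range.2 (by omega), ?_⟩
  rw [Nat.sub_add_cancel h0.1, Nat.sub_add_cancel h1.1]
  apply ext_sound hc hd f 0 _ (by omega)
  intro m hm
  rw [Nat.one_shiftLeft, Nat.testBit_two_pow] at hm
  simp only [decide_eq_true_eq] at hm
  exact ⟨0, 1, ⟨by omega, by omega⟩, by omega, hm.symm⟩

theorem Colourable.mono {n n' k k' : ℕ} (hn : n' ≤ n) (hk : k ≤ k') (h : Colourable n k) :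
    Colourable n' k' := by
  obtain ⟨c, hc, hd⟩ := h
  refine ⟨c, fun v hv => ?_, ?_⟩
  · have := hc v (by omega); omega
  · intro i j i' j' e1 e2
    exact hd i j i' j' ⟨by have := e1.1; omega, e1.2⟩ ⟨by have := e2.1; omega, e2.2⟩

theorem colourable_of_list {n k : ℕ} {E : List (ℕ × ℕ)} (hE : E = edges n) (hN : E.Nodup)
    (l : List ℕ) (h1 : ((List.range n).all fun v => decide (1 ≤ l.getD v 0) &&
      decide (l.getD v 0 ≤ k)) = true) (h2 : okAux E 0 l = true) : Colourable n k := by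
  refine ⟨toFun l, ?_, (ok_iff hE hN l).1 h2⟩
  intro v hv
  rw [List.all_eq_true] at h1
  have := h1 v (List.mem_range.2 hv)
  simpa [toFun] using this

def L8 : List (List ℕ × List ℕ) :=
  [([0,0,0,0,0,0,0,1], [41,51,49,25,33,25,10,42,17,42,1,26,9,3]),
   ([1,0,0,0,0,1,0,1], [19,11,19,19]),
   ([1,0,0,0,0,0,2,3], [26,34,34,18,41,12,27,27,33,9,19,18,25,10,20,17,12]),
   ([0,1,0,2,0,0,0,2], [50,34,36,3,20,1,3]),
   ([0,1,0,0,0,0,1,1], [19,3,35,27]),
   ([0,0,1,2,0,0,0,2], [50,52,36,12,1,4]),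
   ([0,0,1,0,1,0,0,1], [11,3]),
   ([0,0,0,1,0,1,0,2], [51,11,51,2,2,1]),
   ([0,0,0,0,1,1,0,2], [11,10,9,3,2,1,3]),
   ([1,2,3,0,3,0,0,3], []),
   ([1,2,3,0,0,1,0,1], [37,29]),
   ([1,2,3,0,0,0,3,4], [46,30]),
   ([1,2,3,0,0,0,2,2], [37,29]),
   ([1,2,0,3,3,0,0,3], []),
   ([1,2,0,3,0,3,0,1], [53,21]),
   ([1,2,0,3,0,0,1,3], [37,21]),
   ([1,2,0,0,3,0,3,2], [29,21]),
   ([1,2,0,0,2,2,0,3], []),
   ([1,2,0,0,2,0,2,3], []),
   ([1,2,0,0,1,1,0,3], []),
   ([1,2,0,0,0,2,3,4], [38,22]),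
   ([1,1,0,2,0,0,2,3], []),
   ([1,1,0,2,0,0,2,2], []),
   ([1,1,0,0,2,2,0,1], []),
   ([1,0,2,3,0,3,0,1], [53,13]),
   ([1,0,2,3,0,1,0,1], [37,13]),
   ([1,0,2,3,0,0,4,3], [38,14]),
   ([1,0,2,3,0,0,2,4], [46,14]),
   ([1,0,2,2,0,0,3,2], []),
   ([1,0,2,0,3,1,0,1], [29,13]),
   ([1,0,2,0,2,0,3,4], [45,46,12]),
   ([1,0,1,2,0,0,2,2], []),
   ([1,0,1,0,2,2,0,3], []),
   ([1,0,1,0,0,1,2,3], []),
   ([1,0,0,2,0,2,1,3], [21,13]),
   ([1,0,0,1,1,0,2,3], []),
   ([1,0,0,1,0,1,2,3], []),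
   ([0,1,2,3,4,0,0,3], [53,5]),
   ([0,1,0,2,3,0,1,1], [21,5]),
   ([1,2,3,4,5,1,0,1], []),
   ([1,2,3,4,5,0,6,4], []),
   ([1,2,3,4,5,0,5,2], []),
   ([1,2,3,4,5,0,2,2], []),
   ([1,2,3,4,5,0,1,4], []),
   ([1,2,3,4,0,5,3,6], []),
   ([1,2,3,4,0,4,5,1], []),
   ([1,2,3,4,0,4,1,5], []),
   ([1,2,3,0,4,2,5,6], []),
   ([1,2,3,0,3,4,5,6], []),
   ([1,2,3,0,3,4,5,2], [])]

def L10 : List (List ℕ × List ℕ) :=
  [([1,0,0,0,0,0,0,0,0,0], [49,57,57,74,34,42,50,25,57,26,9,33,10,41,49,73,66,18]),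
   ([1,2,0,0,0,0,0,1,0,0], [65,49,41,67,73,41,27,52,26,44,19,33,34,33]),
   ([1,1,0,0,0,0,1,0,0,0], [73,73,73,67,59,26,34]),
   ([1,0,2,0,0,0,0,0,0,2], [58,50,50,59,49,66,67,50,35,26,35,11,34,41,42]),
   ([1,0,1,0,0,0,0,1,0,0], [35,27,51,43,43,43]),
   ([1,0,0,2,0,2,0,0,0,0], [74,66,74,66,73,60,65,52,57,11,57,49,9,57]),
   ([1,0,0,1,2,0,0,0,0,0], [59,74,67,65,66,43,57,58,51,65,50,57]),
   ([1,0,0,0,1,0,2,0,0,0], [66,58,73,74,60,11,44,9,44,25,11,44]),
   ([1,0,0,0,0,1,0,2,0,0], [74,75,66,74,66,52,75,67,28,17,35,9,11]),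
   ([1,0,0,0,0,1,0,1,0,0], [27,35,11,11,11,27]),
   ([1,0,0,0,0,0,1,0,1,0], [19,11,74,34,26,35,25]),
   ([1,0,0,0,0,0,0,0,2,1], [41,26,42,41,33,11,41,25,26,41,9,17,26,25,26,27]),
   ([1,2,3,0,0,0,1,0,1,0], [76,45,37,28]),
   ([1,2,3,0,0,0,0,3,0,3], [53,45,37,29]),
   ([1,2,3,0,0,0,0,1,1,0], [44,44,44,28]),
   ([1,2,0,3,0,3,0,0,3,0], [73,20,21]),
   ([1,2,0,3,0,1,0,1,0,0], [37,21,77,21]),
   ([1,2,0,3,0,0,0,0,3,1], [43,60,45,20,37,20,61,35]),
   ([1,2,0,2,0,0,1,1,0,0], [76,36]),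
   ([1,2,0,0,3,1,0,1,0,0], [29,21,21,21]),
   ([1,2,0,0,2,0,0,1,0,1], [52,44]),
   ([1,2,0,0,1,0,3,3,0,0], [74,28,29]),
   ([1,2,0,0,1,0,3,0,0,3], [45,29]),
   ([1,2,0,0,1,0,0,1,3,0], [77,29]),
   ([1,2,0,0,1,0,0,1,0,3], [69,29]),
   ([1,2,0,0,0,3,4,1,0,0], [38,69,69,73,73,22,26,29,27]),
   ([1,2,0,0,0,1,0,3,0,2], [29,21,68,68,21,33]),
   ([1,2,0,0,0,1,0,1,3,0], [37,77,21,29]),
   ([1,1,0,2,0,2,0,0,0,2], [68,52]),
   ([1,1,0,2,0,0,1,0,0,1], [44,36]),
   ([1,1,0,0,2,0,1,0,0,2], [60,60,28,44]),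
   ([1,1,0,0,2,0,1,0,0,1], [44,28]),
   ([1,1,0,0,1,0,2,0,2,0], [76,44]),
   ([1,1,0,0,0,2,1,0,0,1], [36,28]),
   ([1,1,0,0,0,1,0,2,0,2], [52,36]),
   ([1,1,0,0,0,1,0,0,2,1], [52,36]),
   ([1,1,0,0,0,0,1,2,3,0], [45,76,29,28]),
   ([1,0,2,3,0,3,0,0,3,0], [73,12,13]),
   ([1,0,2,3,0,0,2,0,0,2], [45,13]),
   ([1,0,2,2,0,0,2,0,0,2], []),
   ([1,0,2,0,3,1,0,1,0,0], [29,13,13,13]),
   ([1,0,2,0,3,0,3,0,0,2], [61,69,13,29]),
   ([1,0,2,0,3,0,1,0,0,2], [61,45,29,13,13]),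
   ([1,0,2,0,2,0,0,3,0,2], [45,13,45,53]),
   ([1,0,2,0,0,3,2,0,0,2], [29,13]),
   ([1,0,2,0,0,2,0,0,3,2], [53,13]),
   ([1,0,2,0,0,1,0,3,0,3], [37,37,13,13]),
   ([1,0,2,0,0,1,0,0,3,1], [29,13,29,13]),
   ([1,0,2,0,0,1,0,0,2,2], [28,12,12,36]),
   ([1,0,1,2,3,0,0,1,0,0], [69,69,45,45]),
   ([1,0,1,2,0,2,0,0,0,2], [68,52]),
   ([1,0,1,0,0,2,3,1,0,0], [69,77,29,37]),
   ([1,0,1,0,0,2,0,1,3,0], [37,29,29,29]),
   ([1,0,1,0,0,2,0,1,0,3], [37,29,37,29]),
   ([1,0,1,0,0,2,0,0,2,1], [36,28]),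
   ([1,0,1,0,0,1,0,2,2,0], []),
   ([1,0,0,2,3,1,0,1,0,0], [21,13,77,21]),
   ([1,0,0,2,2,0,1,0,1,0], [76,12]),
   ([1,0,0,2,2,0,0,0,2,1], [60,12]),
   ([1,0,0,2,1,0,3,0,0,3], [45,13]),
   ([1,0,0,2,0,3,0,0,2,1], [37,53,13,21,13]),
   ([1,0,0,2,0,2,3,4,0,0], [76,65,76,77,13,13,13,9,21]),
   ([1,0,0,2,0,2,1,0,0,1], [20,12]),
   ([1,0,0,2,0,2,0,1,3,0], [53,77,13,21]),
   ([1,0,0,2,0,2,0,1,1,0], [20,12]),
   ([1,0,0,2,0,2,0,1,0,3], [53,53,13,21]),
   ([1,0,0,2,0,1,3,4,0,0], [66,76,76,13,74,69,13,21]),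
   ([1,0,0,2,0,1,0,3,0,3], [53,37,21,13]),
   ([1,0,0,2,0,1,0,1,0,3], [21,13,21,13]),
   ([1,0,0,2,0,1,0,0,3,1], [21,13,21,13]),
   ([1,0,0,2,0,0,3,0,2,1], [61,45,45,21,13]),
   ([1,0,0,2,0,0,0,2,3,1], [34,53,12,53,21]),
   ([1,0,0,1,2,3,0,3,0,0], [77,69]),
   ([1,0,0,1,2,0,3,0,3,0], [73,44,45]),
   ([1,0,0,1,2,0,2,0,0,2], []),
   ([1,0,0,1,2,0,0,2,2,0], []),
   ([1,0,0,1,2,0,0,1,1,0], []),
   ([1,0,0,1,2,0,0,1,0,3], [69,53]),
   ([1,0,0,1,2,0,0,0,1,1], [52,44]),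
   ([1,0,0,1,1,0,2,0,0,2], []),
   ([1,0,0,1,1,0,2,0,0,1], [68,60]),
   ([1,0,0,1,1,0,0,0,2,1], [60,52]),
   ([1,0,0,1,0,1,0,2,2,0], []),
   ([1,0,0,1,0,0,2,0,2,1], [44,36]),
   ([1,0,0,1,0,0,1,0,1,2], []),
   ([1,0,0,0,2,3,1,0,1,0], [21,13,76,28]),
   ([1,0,0,0,2,1,0,3,2,0], [76,76,29,21,9]),
   ([1,0,0,0,2,1,0,0,3,1], [52,53,29,21,9]),
   ([1,0,0,0,1,2,3,4,0,0], [76,69,73,77,12,13,9,12]),
   ([1,0,0,0,1,2,3,0,4,0], [74,77,61,77,73,13,29,9,9,12]),
   ([1,0,0,0,1,2,3,0,0,4], [60,61,61,61,69,9,12,9,9,13]),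
   ([1,0,0,0,1,1,0,2,0,3], [68,68,11]),
   ([1,2,3,4,5,1,0,1,0,0], [79,71]),
   ([1,2,3,4,0,5,3,0,0,3], []),
   ([1,2,3,4,0,4,1,0,0,1], []),
   ([1,2,3,4,0,4,0,1,1,0], []),
   ([1,2,3,4,0,4,0,0,4,5], []),
   ([1,2,3,4,0,4,0,0,4,1], []),
   ([1,2,3,4,0,1,0,5,0,2], [70,71,38]),
   ([1,2,3,4,0,1,0,1,0,5], [71,39]),
   ([1,2,3,4,0,1,0,0,5,1], [55,39]),
   ([1,2,3,4,0,1,0,0,3,3], [54,38]),
   ([1,2,3,4,0,0,5,3,0,3], [47,39]),
   ([1,2,3,4,0,0,4,0,4,1], []),
   ([1,2,3,4,0,0,1,0,1,4], [46,38]),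
   ([1,2,3,0,4,5,6,1,0,0], [73,76,31,71,31]),
   ([1,2,3,0,4,5,1,0,1,0], [78,30]),
   ([1,2,3,0,4,5,0,3,0,3], [55,31]),
   ([1,2,3,0,4,4,0,1,1,0], []),
   ([1,2,3,0,4,1,0,5,0,5], [55,31]),
   ([1,2,3,0,4,1,0,1,5,0], [79,31]),
   ([1,2,3,0,4,1,0,1,0,5], [71,31]),
   ([1,2,3,0,4,1,0,0,3,3], [54,30]),
   ([1,2,3,0,4,0,4,5,0,3], [71,31]),
   ([1,2,3,0,4,0,1,5,0,3], [47,31,31]),
   ([1,2,3,0,4,0,1,0,5,3], [47,31,31]),
   ([1,2,3,0,3,4,0,5,0,3], [71,55]),
   ([1,2,3,0,3,4,0,1,1,0], []),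
   ([1,2,3,0,0,3,4,0,5,3], []),
   ([1,2,3,0,0,1,4,5,0,5], [39,31]),
   ([1,2,3,0,0,1,4,5,0,2], [71,71,31]),
   ([1,2,3,0,0,1,4,0,5,1], [39,31]),
   ([1,2,0,3,4,5,0,0,3,1], [55,23,23]),
   ([1,2,0,3,3,0,1,0,1,4], []),
   ([1,2,0,3,3,0,0,4,3,1], []),
   ([1,2,0,3,3,0,0,3,4,1], []),
   ([1,2,0,3,1,4,5,0,0,5], []),
   ([1,2,0,3,1,0,4,4,0,5], []),
   ([1,2,0,3,1,0,4,4,0,2], []),
   ([1,2,0,3,1,0,0,1,4,5], []),
   ([1,2,0,3,0,4,5,1,0,1], [39,23]),
   ([1,2,0,3,0,4,0,5,3,1], [39,23,23]),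
   ([1,2,0,3,0,3,4,5,2,0], [79,23]),
   ([1,2,0,3,0,3,4,5,1,0], [79,23]),
   ([1,2,0,3,0,3,4,5,0,1], [71,23]),
   ([1,2,0,3,0,3,4,1,5,0], [79,23]),
   ([1,2,0,3,0,3,4,1,0,5], [71,23]),
   ([1,2,0,3,0,1,4,5,3,0], [39,23,23]),
   ([1,2,0,3,0,1,4,5,0,5], [39,23]),
   ([1,2,0,3,0,1,4,0,5,1], [39,23]),
   ([1,2,0,3,0,1,0,1,4,5], [39,23]),
   ([1,2,0,3,0,0,4,5,3,1], [47,47,23]),
   ([1,2,0,2,3,0,1,1,0,4], []),
   ([1,2,0,2,0,3,4,1,5,0], [79,39]),
   ([1,2,0,0,3,1,4,0,5,1], [31,23]),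
   ([1,2,0,0,3,1,0,4,3,2], [30,22]),
   ([1,2,0,0,2,3,4,1,0,1], []),
   ([1,2,0,0,1,3,4,5,0,2], [71,31]),
   ([1,2,0,0,1,3,4,5,0,1], [71,31]),
   ([1,2,0,0,1,3,4,2,5,0], [79,31]),
   ([1,2,0,0,1,3,4,2,0,5], [71,31]),
   ([1,2,0,0,1,3,4,0,2,5], [63,31]),
   ([1,2,0,0,1,1,0,3,4,2], []),
   ([1,2,0,0,1,1,0,3,2,4], []),
   ([1,1,0,2,3,4,1,0,0,1], []),
   ([1,1,0,2,3,0,1,4,0,3], [70,46]),
   ([1,1,0,2,0,3,1,4,5,0], [74,38,38]),
   ([1,1,0,2,0,2,3,4,0,4], []),
   ([1,1,0,2,0,2,3,0,4,2], []),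
   ([1,1,0,2,0,0,1,3,4,2], [46,38]),
   ([1,1,0,0,2,3,1,4,0,2], [70,30]),
   ([1,1,0,0,2,3,1,0,4,2], [62,30]),
   ([1,1,0,0,2,1,3,4,0,4], []),
   ([1,1,0,0,2,1,3,0,4,1], []),
   ([1,1,0,0,2,1,0,3,2,4], []),
   ([1,1,0,0,2,0,1,3,4,2], [46,30]),
   ([1,1,0,0,1,2,3,4,0,4], []),
   ([1,1,0,0,1,2,3,0,4,4], []),
   ([1,1,0,0,1,2,3,0,4,2], []),
   ([1,1,0,0,1,2,3,0,3,4], []),
   ([1,0,2,3,4,5,1,0,0,2], [63,15,15]),
   ([1,0,2,3,4,1,0,5,4,0], [78,14]),
   ([1,0,2,3,4,1,0,5,0,5], [55,15]),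
   ([1,0,2,3,4,1,0,1,0,5], [71,15]),
   ([1,0,2,3,4,1,0,0,5,1], [55,15]),
   ([1,0,2,3,4,0,4,0,5,2], [63,15]),
   ([1,0,2,3,4,0,1,5,0,2], [47,15,15]),
   ([1,0,2,3,0,4,5,0,3,1], [39,15,15]),
   ([1,0,2,3,0,4,0,5,3,1], [39,15,15]),
   ([1,0,2,3,0,3,4,5,0,2], [71,15]),
   ([1,0,2,3,0,3,4,1,0,5], [71,15]),
   ([1,0,2,3,0,3,0,1,4,5], [55,15]),
   ([1,0,2,3,0,1,4,5,0,5], [39,15]),
   ([1,0,2,3,0,1,4,5,0,2], [39,15,15]),
   ([1,0,2,3,0,0,4,3,5,1], [39,15]),
   ([1,0,2,0,3,1,4,0,2,2], [30,14]),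
   ([1,0,2,0,2,3,4,5,0,2], [71,15]),
   ([1,0,2,0,2,0,3,4,5,2], [47,15]),
   ([1,0,1,2,3,4,0,1,5,0], [79,55]),
   ([1,0,1,2,3,4,0,1,0,5], [71,55]),
   ([1,0,1,2,3,4,0,0,4,1], []),
   ([1,0,1,2,3,0,4,1,5,0], [79,47]),
   ([1,0,1,2,0,3,4,1,5,0], [79,39]),
   ([1,0,1,2,0,3,0,1,4,5], [55,39]),
   ([1,0,1,2,0,2,3,4,0,4], []),
   ([1,0,1,2,0,2,3,0,4,2], []),
   ([1,0,1,0,2,3,4,1,0,5], [71,31]),
   ([1,0,0,2,3,4,5,0,2,1], [23,15,15]),
   ([1,0,0,2,3,4,1,0,1,2], [22,14]),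
   ([1,0,0,2,3,1,4,5,0,5], [23,15]),
   ([1,0,0,2,3,1,0,1,4,5], [23,15]),
   ([1,0,0,2,3,0,4,2,5,1], [23,15]),
   ([1,0,0,2,1,3,4,5,0,2], [71,15]),
   ([1,0,0,2,1,3,4,0,5,1], [63,15]),
   ([1,0,0,2,1,3,4,0,2,5], [63,15]),
   ([1,0,0,2,0,1,3,4,5,2], [23,15,15]),
   ([1,0,0,1,2,3,4,0,4,5], []),
   ([1,0,0,1,2,3,4,0,4,1], []),
   ([1,0,0,1,2,3,4,0,1,1], []),
   ([1,0,0,1,2,3,0,3,4,5], []),
   ([1,0,0,1,2,0,3,1,4,5], []),
   ([1,0,0,1,1,0,2,3,4,1], []),
   ([1,2,3,4,5,6,7,3,0,3], []),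
   ([1,2,3,4,5,6,7,1,0,4], []),
   ([1,2,3,4,5,6,7,1,0,1], []),
   ([1,2,3,4,5,6,7,0,4,1], []),
   ([1,2,3,4,5,6,1,7,0,3], []),
   ([1,2,3,4,5,6,1,0,7,3], []),
   ([1,2,3,4,5,6,1,0,1,4], []),
   ([1,2,3,4,5,6,0,7,4,1], []),
   ([1,2,3,4,5,1,6,7,4,0], []),
   ([1,2,3,4,5,1,6,7,0,7], []),
   ([1,2,3,4,5,1,6,7,0,3], []),
   ([1,2,3,4,5,1,6,0,7,1], []),
   ([1,2,3,4,5,1,6,0,3,3], []),
   ([1,2,3,4,5,1,0,6,5,2], []),
   ([1,2,3,4,5,1,0,1,6,7], []),
   ([1,2,3,4,5,0,6,4,7,1], []),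
   ([1,2,3,4,5,0,5,6,7,3], []),
   ([1,2,3,4,5,0,1,6,7,3], []),
   ([1,2,3,4,0,5,6,7,4,1], []),
   ([1,2,3,4,0,4,5,6,7,3], []),
   ([1,2,3,4,0,4,5,6,7,1], []),
   ([1,2,3,4,0,4,5,6,2,7], []),
   ([1,2,3,4,0,4,5,6,1,7], []),
   ([1,2,3,4,0,4,5,1,6,7], []),
   ([1,2,3,4,0,1,5,6,7,4], []),
   ([1,2,3,4,0,1,5,6,7,3], []),
   ([1,2,3,4,0,1,5,6,7,2], []),
   ([1,2,3,4,0,1,5,6,4,7], []),
   ([1,2,3,0,4,5,6,1,7,4], []),
   ([1,2,3,0,4,1,5,6,7,2], []),
   ([1,2,3,0,3,4,5,6,7,3], []),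
   ([1,2,0,3,4,5,6,7,3,1], []),
   ([1,2,0,3,4,1,5,6,7,3], []),
   ([1,2,0,3,1,4,5,6,7,3], []),
   ([1,2,0,3,1,4,5,6,7,2], []),
   ([1,2,0,3,1,4,5,6,7,1], []),
   ([1,2,0,3,1,4,5,6,3,7], []),
   ([1,2,0,3,1,4,5,6,2,7], []),
   ([1,2,0,3,1,4,5,2,6,7], []),
   ([1,2,0,2,3,4,5,1,6,7], []),
   ([1,1,0,2,3,4,1,5,6,3], []),
   ([1,1,0,2,3,4,1,5,6,2], []),
   ([1,0,2,3,4,5,1,6,7,2], []),
   ([1,0,1,2,3,4,5,1,6,7], [])]

/-! ## Evaluation -/

def E8 : List (ℕ × ℕ) := [(0,1),(0,2),(1,2),(1,3),(2,3),(2,4),(3,4),(3,5),(4,5),(4,6),(5,6),(5,7),(6,7)]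

def E10 : List (ℕ × ℕ) := [(0,1),(0,2),(1,2),(1,3),(2,3),(2,4),(3,4),(3,5),(4,5),(4,6),(5,6),(5,7),
  (6,7),(6,8),(7,8),(7,9),(8,9)]

theorem E8_eq : E8 = edges 8 := by decide +kernel
theorem E10_eq : E10 = edges 10 := by decide +kernel
theorem E8_nodup : E8.Nodup := by decide +kernel
theorem E10_nodup : E10.Nodup := by decide +kernel

set_option maxRecDepth 100000 in
theorem no6 : search 6 6 = false := by decide +kernel

theorem not_colourable6 : ¬ Colourable 8 6 := by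
  intro h
  have := search_sound (f := 6) h
  rw [no6] at this
  exact absurd this (by decide)

theorem lambda8 : IsLambda 8 7 := by
  refine ⟨colourable_of_list E8_eq E8_nodup [1, 2, 3, 4, 5, 1, 6, 7] (by decide +kernel) (by decide +kernel), ?_⟩
  intro k hk h
  exact not_colourable6 (h.mono le_rfl (by omega))

theorem lambda10 : IsLambda 10 7 := by
  refine ⟨colourable_of_list E10_eq E10_nodup [1, 2, 3, 4, 5, 1, 6, 7, 2, 5] (by decide +kernel)
    (by decide +kernel), ?_⟩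
  intro k hk h
  exact not_colourable6 (h.mono (by omega) (by omega))

theorem chk8 : chkAll 8 7 E8 L8 = true := by decide +kernel

theorem chk10 : chkAll 10 7 E10 L10 = true := by decide +kernel

theorem p1_8 : Player1Wins 8 7 := by
  refine player1_of E8_eq E8_nodup L8 chk8 7 1 (by omega) (by omega) (by omega)
    (by decide +kernel) ⟨_, List.mem_cons_self, rfl⟩

theorem p1_10 : Player1Wins 10 7 := by
  refine player1_of E10_eq E10_nodup L10 chk10 0 1 (by omega) (by omega) (by omega)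
    (by decide +kernel) ⟨_, List.mem_cons_self, rfl⟩

/-- **Main result.**  `λ(T_8) = λ(T_10) = 7`, and in the edge-distinguishing game played with `7`
colours on `T_8` and on `T_10` Player 1 has a winning strategy.  Hence the assertion: for every
`n ≥ 4`, Player 2 has a winning strategy in the edge-distinguishing game on `T_n`, is false. -/
theorem result :
    (IsLambda 8 7 ∧ Player1Wins 8 7 ∧ ¬ Player2Wins 8 7) ∧
    (IsLambda 10 7 ∧ Player1Wins 10 7 ∧ ¬ Player2Wins 10 7) ∧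
    ¬ (∀ n ≥ 4, ∀ k, IsLambda n k → Player2Wins n k) := by
  have a8 : ¬ Player2Wins 8 7 := p1_8.not_lose
  have a10 : ¬ Player2Wins 10 7 := p1_10.not_lose
  exact ⟨⟨lambda8, p1_8, a8⟩, ⟨lambda10, p1_10, a10⟩, fun h => a10 (h 10 (by omega) 7 lambda10)⟩

end Pool.Agent.Results.MP_08a4a0_co.LadderGame
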